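import Mathlib
import Pool.Agent.H51.MagicIns

/-!
The magic sums of the edge-magic labelings of all cycles: the answer to both parts of Q1 of
MP_933a78_co (Godbold and Slater), together with the converse and the two small cycles.
-/

set_option autoImplicit false

namespace Pool.Agent.Results.MP_933a78_co.CycleSpectrum

/-- `f` is an edge-magic labeling of the graph `G` with magic sum `k`: a bijection from
`V(G) ∪ E(G)` onto `{1, ..., p + q}`, where `p` is the number of vertices and `q` the number of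
edges, such that `f u + f (uv) + f v = k` for every edge `uv`. -/
def IsEdgeMagic {V : Type} (G : SimpleGraph V) (f : V ⊕ G.edgeSet → ℕ) (k : ℕ) : Prop :=
  Set.BijOn f Set.univ (Set.Icc 1 (Nat.card V + Nat.card G.edgeSet)) ∧
    ∀ (u v : V) (h : G.Adj u v),
      f (Sum.inl u) + f (Sum.inr ⟨s(u, v), h⟩) + f (Sum.inl v) = k

/-- The magic sums of the cycle with `n ≥ 3` vertices are exactly the integers `k` with
`(5 n + 3) / 2 ≤ k ≤ (7 n + 3) / 2`, without 15 and 18 if `n = 5`. For `n = 2 t + 1` the interval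
is `5 t + 4 ≤ k ≤ 7 t + 5`, for `n = 2 t` it is `5 t + 2 ≤ k ≤ 7 t + 1`: parts (a) and (b) of the
conjecture of Godbold and Slater are the cases `n ≥ 7` odd and `n ≥ 4` even. -/
theorem result (n k : ℕ) (hn : 3 ≤ n) :
    (∃ f, IsEdgeMagic (SimpleGraph.cycleGraph n) f k) ↔
      5 * n + 3 ≤ 2 * k ∧ 2 * k ≤ 7 * n + 3 ∧ ¬ (n = 5 ∧ (k = 15 ∨ k = 18)) := by
  obtain ⟨m, rfl⟩ : ∃ m, n = m + 3 := ⟨n - 3, by omega⟩
  exact (Pool.Agent.H51.MagicIns.edgeMagic_iff m k).trans
    (Pool.Agent.H51.MagicIns.spectrum m k)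

end Pool.Agent.Results.MP_933a78_co.CycleSpectrum
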